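import Pool.Agent.V1186.Mag.Up2

set_option autoImplicit false

open MeasureTheory Set Metric Filter Topology
open scoped ContDiff ENNReal NNReal

namespace Pool.Agent.Results.MP_d36e13_an.NoReverseFaberKrahn

/-! The plane is `ℂ`; `fderiv ℝ u z 1` and `fderiv ℝ u z Complex.I` are the two partial
derivatives of `u` at `z`. -/

/-- Bounded, simply connected domains with `C¹` boundary: near each boundary point the domain is
`{ρ < 0}` for a `C¹` function `ρ` with non-zero differential at that point. -/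
structure IsC1Domain (Ω : Set ℂ) : Prop where
  isOpen : IsOpen Ω
  bounded : Bornology.IsBounded Ω
  simplyConnected : SimplyConnectedSpace Ω
  boundary : ∀ p ∈ frontier Ω, ∃ U ∈ 𝓝 p, ∃ ρ : ℂ → ℝ, ContDiff ℝ 1 ρ ∧ fderiv ℝ ρ p ≠ 0 ∧
    ∀ z ∈ U, (z ∈ Ω ↔ ρ z < 0)

/-- `A = (A₁, A₂)` is a continuous real vector potential with `curl A = ∂₁A₂ - ∂₂A₁ = b 1_ω` in `Ω`,
in the sense of distributions. -/
structure IsPotential (Ω W : Set ℂ) (b : ℝ) (A₁ A₂ : ℂ → ℝ) : Prop where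
  cont₁ : Continuous A₁
  cont₂ : Continuous A₂
  curl : ∀ φ : ℂ → ℝ, ContDiff ℝ ∞ φ → HasCompactSupport φ → tsupport φ ⊆ Ω →
    ∫ z, (A₁ z * fderiv ℝ φ z Complex.I - A₂ z * fderiv ℝ φ z 1) = b * ∫ z in W, φ z

/-- `∫_Ω |(-i∇ - A)u|²` -/
noncomputable def energy (A₁ A₂ : ℂ → ℝ) (Ω : Set ℂ) (u : ℂ → ℂ) : ℝ≥0∞ :=
  ∫⁻ z in Ω, (‖-Complex.I * fderiv ℝ u z 1 - A₁ z * u z‖ₑ ^ 2 +
    ‖-Complex.I * fderiv ℝ u z Complex.I - A₂ z * u z‖ₑ ^ 2)

/-- `∫_Ω |u|²` -/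
noncomputable def mass (Ω : Set ℂ) (u : ℂ → ℂ) : ℝ≥0∞ := ∫⁻ z in Ω, ‖u z‖ₑ ^ 2

/-- The non-zero elements of `C^∞(Ω) ∩ H¹(Ω)` (a dense subspace of `H¹(Ω)`). -/
structure Admissible (Ω : Set ℂ) (u : ℂ → ℂ) : Prop where
  smooth : ContDiffOn ℝ ∞ u Ω
  memL2 : mass Ω u ≠ ⊤
  grad_memL2 : ∫⁻ z in Ω, ‖fderiv ℝ u z‖ₑ ^ 2 ≠ ⊤
  ne_zero : mass Ω u ≠ 0

/-- The lowest eigenvalue of `(-i∇ - A)²` on `Ω` with magnetic Neumann boundary condition, for a
field of total flux `Φ`, constant in `W` and zero in `Ω \ W`: the infimum of the Rayleigh quotient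
over `u`. By gauge invariance this infimum is the same for all potentials `A` when `Ω` is simply
connected; we take the infimum over `A` as well. -/
noncomputable def lam (Φ : ℝ) (Ω W : Set ℂ) : ℝ≥0∞ :=
  ⨅ (A₁ : ℂ → ℝ) (A₂ : ℂ → ℝ)
    (_ : IsPotential Ω W (2 * Real.pi * Φ / (volume W).toReal) A₁ A₂)
    (u : ℂ → ℂ) (_ : Admissible Ω u), energy A₁ A₂ Ω u / mass Ω u

open Pool.Agent.V1186

theorem lam_le {Φ : ℝ} {Ω W : Set ℂ} {A₁ A₂ : ℂ → ℝ} {u : ℂ → ℂ}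
    (hA : IsPotential Ω W (2 * Real.pi * Φ / (volume W).toReal) A₁ A₂) (hu : Admissible Ω u) :
    lam Φ Ω W ≤ energy A₁ A₂ Ω u / mass Ω u := by
  unfold lam
  exact (iInf_le _ A₁).trans ((iInf_le _ A₂).trans ((iInf_le _ hA).trans
    ((iInf_le _ u).trans (iInf_le _ hu))))

theorem isC1Domain_ball {R : ℝ} (hR : 0 < R) : IsC1Domain (ball (0:ℂ) R) := by
  refine ⟨isOpen_ball, isBounded_ball, ?_, fun p hp => ?_⟩
  · have : ContractibleSpace (ball (0:ℂ) R) :=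
      (convex_ball (0:ℂ) R).contractibleSpace ⟨0, mem_ball_self hR⟩
    infer_instance
  · refine ⟨univ, univ_mem, fun z => ‖z‖ ^ 2 - R ^ 2,
      ((contDiff_norm_sq ℝ).sub contDiff_const), ?_, fun z _ => ?_⟩
    · have hp' : ‖p‖ = R := by
        rw [frontier_ball _ hR.ne', mem_sphere_zero_iff_norm] at hp
        exact hp
      intro h0
      have h1 : HasFDerivAt (fun z : ℂ => ‖z‖ ^ 2 - R ^ 2) (2 • innerSL ℝ p) p :=
        (hasStrictFDerivAt_norm_sq p).hasFDerivAt.sub_const _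
      rw [h1.fderiv] at h0
      have h2 := congrArg (fun L : ℂ →L[ℝ] ℝ => L p) h0
      simp only [smul_apply, innerSL_apply_apply, real_inner_self_eq_norm_sq, zero_apply] at h2
      rw [hp'] at h2
      have : 0 < 2 • R ^ 2 := by positivity
      linarith
    · rw [mem_ball_zero_iff, sub_neg, sq_lt_sq₀ (norm_nonneg _) hR.le]

theorem isC1Domain_ell {ε : ℝ} (hε0 : 0 < ε) (hε : ε ≤ 4 / 5) : IsC1Domain (Mag.ell ε) := by
  refine ⟨Mag.ell_open ε, isBounded_ball.subset (Mag.ell_sub_ball hε0 hε), ?_, fun p hp => ?_⟩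
  · have : ContractibleSpace (Mag.ell ε) :=
      (Mag.ell_convex ε).contractibleSpace ⟨0, Mag.ell_zero ε⟩
    infer_instance
  · have ne : (∞ : ℕ∞ω) ≠ 0 := by simp
    have hs := Mag.rho_smooth ε
    refine ⟨univ, univ_mem, fun z => Mag.rho ε z - 1,
      (hs.of_le (by exact ENat.LEInfty.out)).sub contDiff_const, ?_, fun z _ => ?_⟩
    · have hp' : Mag.rho ε p = 1 :=
        frontier_lt_subset_eq hs.continuous continuous_const hp
      intro h0
      rw [fderiv_sub_const] at h0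
      have h2 := Mag.rho_deriv ε p
      rw [h0, hp'] at h2
      simp at h2
    · rw [sub_neg]; rfl

theorem lam_ell_ge {ε : ℝ} (hε0 : 0 < ε) (hε : ε ≤ 4 / 5) : ∃ n₀ : ℕ, ∀ n : ℕ, n₀ ≤ n →
    ENNReal.ofReal (3 / 164) ≤ lam n (ball 0 1) (Mag.ell ε) := by
  obtain ⟨b₀, hb⟩ := Mag.lower hε0 hε
  refine ⟨⌈b₀ * (4 / 5 * ε) / 2⌉₊, fun n hn => ?_⟩
  have hn' : b₀ * (4 / 5 * ε) / 2 ≤ n := (Nat.le_ceil _).trans (by exact_mod_cast hn)
  unfold lam
  refine le_iInf fun A₁ => le_iInf fun A₂ => le_iInf fun hA => le_iInf fun u => le_iInf fun hu => ?_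
  rw [ENNReal.le_div_iff_mul_le (Or.inl hu.ne_zero) (Or.inl hu.memL2)]
  refine hb _ ?_ A₁ A₂ ⟨hA.cont₁, hA.cont₂, hA.curl⟩ u hu.smooth hu.memL2
  rw [Mag.ell_vol hε0, ENNReal.toReal_ofReal (by positivity), le_div_iff₀ (by positivity)]
  have h1 : b₀ * (4 / 5 * ε) ≤ 2 * n := by linarith
  have h2 := mul_le_mul_of_nonneg_right h1 Real.pi_pos.le
  linarith

theorem lam_ell_lt {ε Φ : ℝ} (hε0 : 0 < ε) : lam Φ (ball 0 1) (Mag.ell ε) < ⊤ := by
  have hP := Mag.pot_ell (b := 2 * Real.pi * Φ / (volume (Mag.ell ε)).toReal) hε0 (ball 0 1)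
  obtain ⟨C, hC⟩ := (isCompact_closedBall (0:ℂ) 1).exists_bound_of_continuousOn
    hP.cont₁.continuousOn
  have hm : mass (ball 0 1) (fun _ => 1) = volume (ball (0:ℂ) 1) := by
    unfold mass; simp
  have hadm : Admissible (ball 0 1) (fun _ => 1) := by
    refine ⟨contDiffOn_const, ?_, ?_, ?_⟩
    · rw [hm]; exact measure_ball_lt_top.ne
    · simp
    · rw [hm]; exact (measure_ball_pos _ _ one_pos).ne'
  refine (lam_le ⟨hP.cont₁, hP.cont₂, hP.curl⟩ hadm).trans_lt ?_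
  refine ENNReal.div_lt_top ?_ hadm.ne_zero
  have hle : energy (fun z => -(2 * Real.pi * Φ / (volume (Mag.ell ε)).toReal) *
      max (-Mag.hh ε z.re) (min z.im (Mag.hh ε z.re))) (fun _ => 0) (ball 0 1) (fun _ => 1) ≤
      ∫⁻ z in ball (0:ℂ) 1, ENNReal.ofReal (C ^ 2) := by
    unfold energy
    apply setLIntegral_mono' measurableSet_ball
    intro z hz
    have h1 := hC z (ball_subset_closedBall hz)
    have h2 : ‖-(2 * Real.pi * Φ / (volume (Mag.ell ε)).toReal) *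
      max (-Mag.hh ε z.re) (min z.im (Mag.hh ε z.re))‖ ≤ C := h1
    have e1 : fderiv ℝ (fun _ : ℂ => (1:ℂ)) z = 0 := by simp
    rw [e1]
    simp only [zero_apply, mul_zero, zero_sub, mul_one, Complex.ofReal_zero, neg_zero, enorm_zero,
      enorm_neg]
    rw [Mag.enorm_sq]
    simp only [ne_eq, OfNat.ofNat_ne_zero, not_false_eq_true, zero_pow, add_zero]
    apply ENNReal.ofReal_le_ofReal
    rw [Complex.norm_real]
    exact pow_le_pow_left₀ (norm_nonneg _) h2 2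
  refine ne_top_of_le_ne_top ?_ hle
  rw [setLIntegral_const]
  exact ENNReal.mul_ne_top ENNReal.ofReal_ne_top measure_ball_lt_top.ne

theorem lam_disk_le {C : ℝ} (hC0 : 0 ≤ C) (hC : ∀ z, ‖fderiv ℝ Mag.psi z‖ ≤ C) {N : ℕ} (hN : 1 ≤ N)
    {R : ℝ} (hR : 0 < R) (hRN : R ≤ (1 / 2) ^ (N + 1)) (n : ℕ) :
    lam n (ball 0 1) (ball 0 R) ≤ ENNReal.ofReal (32 * C ^ 2 / N) := by
  have hN0 : (0:ℝ) < N := by exact_mod_cast hN
  have hP := Mag.pot_disk (Φ := n) hR (ball 0 1)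
  have hb : 2 * (n:ℝ) / R ^ 2 = 2 * Real.pi * n / (volume (ball (0:ℂ) R)).toReal := by
    rw [Complex.volume_ball, Mag.pi_nn, ← ENNReal.ofReal_pow hR.le,
      ← ENNReal.ofReal_mul (by positivity), ENNReal.toReal_ofReal (by positivity)]
    have := Real.pi_ne_zero
    field_simp
  rw [hb] at hP
  have hm0 : mass (ball 0 1) (Mag.tf N n) ≠ 0 := by
    have h1 : ENNReal.ofReal (Real.pi / 16) ≤ mass (ball 0 1) (Mag.tf N n) := Mag.tf_mass_ge hN
    have h2 : 0 < ENNReal.ofReal (Real.pi / 16) := ENNReal.ofReal_pos.2 (by positivity)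
    exact (h2.trans_le h1).ne'
  have hadm : Admissible (ball 0 1) (Mag.tf N n) := by
    refine ⟨(Mag.tf_smooth N n).contDiffOn, Mag.tf_mass_lt N n, ?_, hm0⟩
    have ne : (∞ : ℕ∞ω) ≠ 0 := by simp
    obtain ⟨K, hK⟩ := (isCompact_closedBall (0:ℂ) 1).exists_bound_of_continuousOn
      ((Mag.tf_smooth N n).continuous_fderiv ne).continuousOn
    have h1 : ∫⁻ z in ball (0:ℂ) 1, ‖fderiv ℝ (Mag.tf N n) z‖ₑ ^ 2 ≤
        ∫⁻ z in ball (0:ℂ) 1, ENNReal.ofReal (K ^ 2) := by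
      apply setLIntegral_mono' measurableSet_ball
      intro z hz
      have h1 := hK z (ball_subset_closedBall hz)
      rw [← ofReal_norm, ← ENNReal.ofReal_pow (norm_nonneg _)]
      apply ENNReal.ofReal_le_ofReal
      exact pow_le_pow_left₀ (norm_nonneg _) h1 2
    refine ne_top_of_le_ne_top ?_ h1
    rw [setLIntegral_const]
    exact ENNReal.mul_ne_top ENNReal.ofReal_ne_top measure_ball_lt_top.ne
  refine (lam_le ⟨hP.cont₁, hP.cont₂, hP.curl⟩ hadm).trans ?_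
  have h1 : energy (fun z => -(n:ℝ) * (Mag.FF R z).im) (fun z => (n:ℝ) * (Mag.FF R z).re)
      (ball 0 1) (Mag.tf N n) ≤ ENNReal.ofReal (2 * (Real.pi * C ^ 2 / N)) :=
    Mag.tf_en hC0 hC hN hR hRN (ball 0 1)
  have h2 : ENNReal.ofReal (Real.pi / 16) ≤ mass (ball 0 1) (Mag.tf N n) := Mag.tf_mass_ge hN
  refine (ENNReal.div_le_div h1 h2).trans ?_
  rw [← ENNReal.ofReal_div_of_pos (by positivity)]
  apply ENNReal.ofReal_le_ofReal
  apply le_of_eq
  have := Real.pi_ne_zero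
  field_simp
  ring

/-- **The reverse Faber-Krahn inequality for localized magnetic fields fails**, by an arbitrarily
large factor and for all large integer fluxes: `Ω = Ω*` is the unit disk and `W` is a thin
ellipse. -/
theorem result : ∀ M : ℝ≥0, ∃ (W : Set ℂ) (R₀ : ℝ) (n₀ : ℕ),
    IsC1Domain (ball (0:ℂ) 1) ∧ IsC1Domain W ∧ closure W ⊆ ball (0:ℂ) 1 ∧
    0 < R₀ ∧ R₀ < 1 ∧ volume (ball (0:ℂ) R₀) = volume W ∧
    ∀ n : ℕ, n₀ ≤ n →
      M * lam n (ball 0 1) (ball 0 R₀) < lam n (ball 0 1) W ∧ lam n (ball 0 1) W < ⊤ := by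
  intro M
  obtain ⟨C, hC0, hC⟩ := Mag.dpsi_bdd
  obtain ⟨N, hN⟩ := exists_nat_gt (M * (32 * C ^ 2) * (164 / 3) + 1)
  have hM0 : (0:ℝ) ≤ M := M.2
  have hN1 : 1 ≤ N := by
    have h1 : (1:ℝ) < N := lt_of_le_of_lt (by
      have : 0 ≤ (M:ℝ) * (32 * C ^ 2) * (164 / 3) := by positivity
      linarith) hN
    exact_mod_cast h1.le
  have hN0 : (0:ℝ) < N := by exact_mod_cast hN1
  set ε : ℝ := (1 / 4) ^ (N + 1) with hεdef
  have hε0 : 0 < ε := by positivity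
  have hε1 : ε ≤ 1 / 4 := by
    have h1 : ε = (1/4) ^ N * (1/4) := pow_succ _ _
    have h2 : (1/4 : ℝ) ^ N ≤ 1 := pow_le_one₀ (by norm_num) (by norm_num)
    rw [h1]; linarith
  have hε : ε ≤ 4 / 5 := by linarith
  set R : ℝ := √(4 / 5 * ε) with hRdef
  have hR : 0 < R := Real.sqrt_pos.2 (by positivity)
  have hRsq : R ^ 2 = 4 / 5 * ε := Real.sq_sqrt (by positivity)
  have hRN : R ≤ (1 / 2) ^ (N + 1) := by
    rw [hRdef]
    apply Real.sqrt_le_iff.2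
    refine ⟨by positivity, ?_⟩
    have : (((1:ℝ) / 2) ^ (N + 1)) ^ 2 = ε := by
      rw [hεdef, ← pow_mul, mul_comm, pow_mul]; norm_num
    rw [this]; linarith
  have hR1 : R < 1 := by
    have : R ^ 2 < 1 := by rw [hRsq]; linarith
    exact (sq_lt_one_iff₀ hR.le).1 this
  obtain ⟨n₀, hn₀⟩ := lam_ell_ge hε0 hε
  refine ⟨Mag.ell ε, R, n₀, isC1Domain_ball one_pos, isC1Domain_ell hε0 hε,
    Mag.ell_closure hε0 hε, hR, hR1, ?_, fun n hn => ⟨?_, lam_ell_lt hε0⟩⟩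
  · rw [Complex.volume_ball, Mag.pi_nn, ← ENNReal.ofReal_pow hR.le,
      ← ENNReal.ofReal_mul (by positivity), Mag.ell_vol hε0, hRsq]
  · refine lt_of_lt_of_le ?_ (hn₀ n hn)
    calc (M:ℝ≥0∞) * lam n (ball 0 1) (ball 0 R) ≤ M * ENNReal.ofReal (32 * C ^ 2 / N) := by
          gcongr; exact lam_disk_le hC0 hC hN1 hR hRN n
      _ = ENNReal.ofReal (M * (32 * C ^ 2 / N)) := by
          rw [ENNReal.ofReal_mul hM0, ENNReal.ofReal_coe_nnreal]
      _ < ENNReal.ofReal (3 / 164) := by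
          apply (ENNReal.ofReal_lt_ofReal_iff (by norm_num)).2
          rw [← mul_div_assoc, div_lt_iff₀ hN0]
          linarith

end Pool.Agent.Results.MP_d36e13_an.NoReverseFaberKrahn
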